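import Mathlib
import Pool.Agent.Y666.SP.Stm

set_option autoImplicit false

/-! Project SP: the union of the spines of the pieces is coinitial in each germ. -/

namespace Pool.Agent.Y799.SP

open Pool.Agent.Y666.SP

theorem coi (h1 : S_STAR) (h2 : S_LIM) (h3 : S_BET) : S_COI := by
  intro α _ w hw G C f hS hB g hg z hz
  rcases h2 α G hS g hg with ⟨x, hx, hxg, hxn⟩ | hr
  · have fact : ∀ y ∈ g.carrier, y < x → y ∈ BB G ∧ Same G y x := by
      intro y hy hyx
      have key : ∀ h ∈ G, (y ∈ h.carrier ∧ x ∈ h.carrier) ∨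
          ((∀ q ∈ h.carrier, y < q) ∧ y ∉ h.carrier ∧ x ∉ h.carrier) := by
        intro h hh
        rcases hS.ch g hg h hh with rfl | hgh | ⟨p, hp, hpq⟩
        · exact Or.inl ⟨hy, hxg⟩
        · have hxh := hxn h hh hgh
          rcases hx h hh with h4 | h4
          · exact absurd h4 hxh
          · exact Or.inr ⟨fun q hq => hyx.trans (h4 q hq),
              fun h5 => hxh (h.up y h5 x hyx.le), hxh⟩
        · exact Or.inl ⟨h.up p hp y (hpq y hy).le, h.up p hp x (hpq x hxg).le⟩
      constructor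
      · intro h hh
        rcases key h hh with h4 | h4
        · exact Or.inl h4.1
        · exact Or.inr h4.1
      · intro h hh
        rcases key h hh with h4 | h4
        · exact ⟨fun _ => h4.2, fun _ => h4.1⟩
        · exact ⟨fun h5 => absurd h5 h4.2.1, fun h5 => absurd h5 h4.2.2⟩
    obtain ⟨y, hy, hyx, hyz⟩ := g.dir x hxg z hz
    obtain ⟨hyB, hyS⟩ := fact y hy hyx
    have step : ∀ c : {c : α // c ∈ C ∧ Same G c x}, ∃ c' : {c : α // c ∈ C ∧ Same G c x},
        c'.1 < c.1 := by
      rintro ⟨c, hc, hcS⟩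
      have hcg : c ∈ g.carrier := (hcS g hg).2 hxg
      obtain ⟨y', hy', hy'c, hy'x⟩ := g.dir c hcg x hxg
      obtain ⟨hB', hS'⟩ := fact y' hy' hy'x
      have hfC := hB.map y' hB'
      have hfS : Same G (f y') x := fun h hh => (hB.same y' hB' h hh).trans (hS' h hh)
      refine ⟨⟨f y', hfC, hfS⟩, ?_⟩
      show f y' < c
      have hnot : ¬ c ≤ f y' := by
        intro hle
        have h5 : y' < f y' := lt_of_lt_of_le hy'c hle
        exact hB.anti y' hB' (f y') (hB.sub hfC) (hB.fix _ hfC).symm h5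
      rcases hB.chain.total hc hfC with h6 | h6
      · exact absurd h6 hnot
      · exact lt_of_le_not_ge h6 hnot
    choose nx hnx using step
    have hf0 : Same G (f y) x := fun h hh => (hB.same y hyB h hh).trans (hyS h hh)
    let s : ℕ → {c : α // c ∈ C ∧ Same G c x} :=
      fun n => Nat.rec ⟨f y, hB.map y hyB, hf0⟩ (fun _ c => nx c) n
    have hs : StrictAnti fun n => (s n).1 := strictAnti_nat_of_succ_lt fun n => hnx (s n)
    obtain ⟨n, hn⟩ := h1 α G hS (fun n => (s n).1) hs (fun n => hB.sub (s n).2.1) y hyB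
      (fun n h hh => ((s n).2.2 h hh).trans (hyS h hh).symm)
    exact ⟨(s n).1, (s n).2.1, ((s n).2.2 g hg).2 hxg, hn.trans hyz.le⟩
  · obtain ⟨h, hh, hgh, hzh⟩ := hr z hz
    obtain ⟨b, hbB, hbg, hbq⟩ := h3 α w hw G hS g hg h hh hgh
    have hfC := hB.map b hbB
    have hfS := hB.same b hbB
    refine ⟨f b, hfC, (hfS g hg).2 hbg, ?_⟩
    rcases hB.sub hfC h hh with h4 | h4
    · exact absurd (hbq b ((hfS h hh).1 h4)) (lt_irrefl b)
    · exact (h4 z hzh).le

end Pool.Agent.Y799.SP
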