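import Mathlib
import Pool.Agent.Y489.SP.Stm

/-!
# Project SP (helper489): cyclic partition of a totally separated compact set
-/

set_option autoImplicit false

open Set Metric Filter Topology Function

namespace Pool.Agent.Y799.SP

/-- a cyclic colouring of the periodic points whose period is a power of `p` -/
lemma exists_kappa {α : Type} (f : α → α) (p : ℕ) (hp : p.Prime) :
    ∃ κ : α → ZMod p, ∀ (ω : α) (J : ℕ), f^[p ^ J] ω = ω → f ω ≠ ω → κ (f ω) = κ ω + 1 := by
  classical
  set R : α → α := fun ω => @Classical.epsilon α ⟨ω⟩ (fun a => a ∈ periodicOrbit f ω) with hRdef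
  set N : α → ℕ := fun ω => if h : ∃ n, f^[n] ω = R ω then h.choose else 0 with hNdef
  refine ⟨fun ω => -((N ω : ℕ) : ZMod p), ?_⟩
  intro ω J hJ hne
  have hper : ω ∈ periodicPts f := ⟨p ^ J, pow_pos hp.pos J, hJ⟩
  have hperf : f ω ∈ periodicPts f := by
    refine ⟨p ^ J, pow_pos hp.pos J, ?_⟩
    show f^[p ^ J] (f ω) = f ω
    rw [← Function.iterate_succ_apply, Function.iterate_succ_apply', hJ]
  have hR : R (f ω) = R ω := by
    simp only [hRdef]
    rw [periodicOrbit_apply_eq hper]
  have hmem : ∀ ω' : α, ω' ∈ periodicPts f → ∃ n, f^[n] ω' = R ω' := by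
    intro ω' h'
    have : R ω' ∈ periodicOrbit f ω' :=
      @Classical.epsilon_spec_aux α ⟨ω'⟩ (fun a => a ∈ periodicOrbit f ω')
        ⟨ω', self_mem_periodicOrbit h'⟩
    exact (mem_periodicOrbit_iff h').1 this
  have hN : ∀ ω' : α, ω' ∈ periodicPts f → f^[N ω'] ω' = R ω' := by
    intro ω' h'
    have h := hmem ω' h'
    simp only [hNdef]
    rw [dif_pos h]
    exact h.choose_spec
  have e1 := hN ω hper
  have e2 := hN (f ω) hperf
  rw [hR, ← e1, ← Function.iterate_succ_apply] at e2
  -- the minimal period is divisible by `p`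
  have hdvd : p ∣ minimalPeriod f ω := by
    have h1 : minimalPeriod f ω ∣ p ^ J := IsPeriodicPt.minimalPeriod_dvd hJ
    obtain ⟨k, -, hk⟩ := (Nat.dvd_prime_pow hp).1 h1
    rcases Nat.eq_zero_or_pos k with h0 | h0
    · exfalso
      rw [h0, pow_zero] at hk
      exact hne (minimalPeriod_eq_one_iff_isFixedPt.1 hk)
    · rw [hk]; exact dvd_pow_self p h0.ne'
  have hmod : (N (f ω) + 1) % minimalPeriod f ω = N ω % minimalPeriod f ω := by
    have hpos : 0 < minimalPeriod f ω := minimalPeriod_pos_of_mem_periodicPts hper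
    apply iterate_injOn_Iio_minimalPeriod (f := f) (x := ω)
      (Set.mem_Iio.2 (Nat.mod_lt _ hpos)) (Set.mem_Iio.2 (Nat.mod_lt _ hpos))
    show f^[(N (f ω) + 1) % minimalPeriod f ω] ω = f^[N ω % minimalPeriod f ω] ω
    rw [iterate_mod_minimalPeriod_eq, iterate_mod_minimalPeriod_eq]
    exact e2
  have hmodp : (N (f ω) + 1) ≡ N ω [MOD p] := Nat.ModEq.of_dvd hdvd hmod
  have hz : (((N (f ω) + 1 : ℕ)) : ZMod p) = ((N ω : ℕ) : ZMod p) :=
    (ZMod.natCast_eq_natCast_iff _ _ _).2 hmodp
  push_cast at hz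
  show -((N (f ω) : ℕ) : ZMod p) = -((N ω : ℕ) : ZMod p) + 1
  rw [← hz]; ring

/-- finite clopen partitions into small pieces -/
lemma exists_c {X : Type} [MetricSpace X] [CompactSpace X] [TotallyDisconnectedSpace X]
    (δ : ℝ) (hδ : 0 < δ) :
    ∃ c : X → Finset X, (∀ x, IsOpen {x' | c x' = c x}) ∧ ∀ x x', c x = c x' → dist x x' < δ := by
  classical
  have h1 : ∀ x : X, ∃ V : Set X, IsClopen V ∧ x ∈ V ∧ V ⊆ ball x (δ / 2) := fun x =>
    compact_exists_isClopen_in_isOpen isOpen_ball (mem_ball_self (by positivity))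
  choose V hV hxV hVb using h1
  obtain ⟨t, ht⟩ := CompactSpace.elim_nhds_subcover V (fun x => (hV x).isOpen.mem_nhds (hxV x))
  refine ⟨fun x => t.filter (fun y => x ∈ V y), ?_, ?_⟩
  · intro x
    have : {x' | t.filter (fun y => x' ∈ V y) = t.filter (fun y => x ∈ V y)}
        = ⋂ y ∈ t, {x' | x' ∈ V y ↔ x ∈ V y} := by
      ext x'
      simp only [mem_ofPred_eq, mem_iInter]
      constructor
      · intro h y hy
        have h1 : y ∈ t.filter (fun y => x' ∈ V y) ↔ y ∈ t.filter (fun y => x ∈ V y) := by rw [h]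
        simpa [hy] using h1
      · intro h
        ext y
        simp only [Finset.mem_filter]
        constructor
        · rintro ⟨h1, h2⟩; exact ⟨h1, (h y h1).1 h2⟩
        · rintro ⟨h1, h2⟩; exact ⟨h1, (h y h1).2 h2⟩
    rw [this]
    refine isOpen_biInter_finset ?_
    intro y _
    by_cases hy : x ∈ V y
    · have : {x' | x' ∈ V y ↔ x ∈ V y} = V y := by ext; simp [hy]
      rw [this]; exact (hV y).isOpen
    · have : {x' | x' ∈ V y ↔ x ∈ V y} = (V y)ᶜ := by ext; simp [hy]
      rw [this]; exact (hV y).compl.isOpen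
  · intro x x' h
    have hx : x ∈ ⋃ y ∈ t, V y := by rw [ht]; trivial
    simp only [mem_iUnion] at hx
    obtain ⟨y, hy, hxy⟩ := hx
    have h' : y ∈ t.filter (fun y => x ∈ V y) := by simp [hy, hxy]
    have h2 : t.filter (fun y => x ∈ V y) = t.filter (fun y => x' ∈ V y) := h
    rw [h2] at h'
    have hx'y : x' ∈ V y := (Finset.mem_filter.1 h').2
    have d1 := hVb y hxy
    have d2 := hVb y hx'y
    rw [mem_ball] at d1 d2
    calc dist x x' ≤ dist x y + dist x' y := dist_triangle_right _ _ _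
      _ < δ := by linarith

theorem core {X : Type} [MetricSpace X] [CompactSpace X] [TotallyDisconnectedSpace X]
    (p : ℕ) (hp : p.Prime) (T : X → X) (hT : Continuous T) (hne : ∀ x, T x ≠ x)
    (happ : ∀ ε : ℝ, 0 < ε → ∃ J : ℕ, ∀ x, dist (T^[p ^ J] x) x < ε) :
    ∃ κ : X → ZMod p, (∀ i, IsClosed {x | κ x = i}) ∧ ∀ x, κ (T x) = κ x + 1 := by
  classical
  -- the displacement is bounded below
  obtain ⟨δ, hδ, hδT⟩ : ∃ δ : ℝ, 0 < δ ∧ ∀ x, δ ≤ dist (T x) x := by
    rcases isEmpty_or_nonempty X with hX | hX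
    · exact ⟨1, one_pos, fun x => (hX.false x).elim⟩
    · obtain ⟨x0, -, h0⟩ := isCompact_univ.exists_isMinOn (univ_nonempty (α := X))
        (f := fun x => dist (T x) x) (by fun_prop)
      exact ⟨dist (T x0) x0, dist_pos.2 (hne x0), fun x => h0 (mem_univ x)⟩
  obtain ⟨c, hc, hcδ⟩ := exists_c (X := X) δ hδ
  have hcT : ∀ x, c (T x) ≠ c x := fun x h => absurd (hcδ _ _ h) (not_lt.2 (hδT x))
  -- Lebesgue number
  obtain ⟨ε, hε, hεc⟩ : ∃ ε : ℝ, 0 < ε ∧ ∀ x x', dist x' x < ε → c x' = c x := by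
    obtain ⟨ε, hε, h⟩ := lebesgue_number_lemma_of_metric (s := (univ : Set X)) isCompact_univ
      (c := fun z : X => {x' | c x' = c z}) hc
      (fun x _ => mem_iUnion.2 ⟨x, rfl⟩)
    refine ⟨ε, hε, fun x x' hx => ?_⟩
    obtain ⟨z, hz⟩ := h x (mem_univ x)
    have e1 : c x' = c z := hz (mem_ball.2 hx)
    have e2 : c x = c z := hz (mem_ball_self hε)
    rw [e1, e2]
  obtain ⟨J, hJ⟩ := happ ε hε
  have hq : ∀ x, c (T^[p ^ J] x) = c x := fun x => hεc _ _ (hJ x)
  set q := p ^ J with hqdef
  have hqpos : 0 < q := pow_pos hp.pos J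
  set C : X → ℕ → Finset X := fun x k => c (T^[k] x) with hCdef
  set sh : (ℕ → Finset X) → (ℕ → Finset X) := fun ω k => ω (k + 1) with hsh
  have hCT : ∀ x, C (T x) = sh (C x) := by
    intro x; funext k
    simp only [hCdef, hsh]
    rw [Function.iterate_succ_apply]
  have hshk : ∀ (m : ℕ) (ω : ℕ → Finset X) (k : ℕ), (sh^[m] ω) k = ω (k + m) := by
    intro m
    induction m with
    | zero => intro ω k; rfl
    | succ m ih =>
      intro ω k
      rw [Function.iterate_succ_apply, ih]
      simp only [hsh]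
      rw [add_assoc]
  have hCper : ∀ x k, C x (k + q) = C x k := by
    intro x k
    simp only [hCdef]
    rw [add_comm, Function.iterate_add_apply, hq]
  have hshq : ∀ x, sh^[p ^ J] (C x) = C x := by
    intro x; funext k
    rw [hshk]; exact hCper x k
  have hshne : ∀ x, sh (C x) ≠ C x := by
    intro x h
    rw [← hCT] at h
    exact hcT x (congrFun h 0)
  obtain ⟨κ, hκ⟩ := exists_kappa sh p hp
  refine ⟨fun x => κ (C x), ?_, ?_⟩
  · intro i
    -- `C` is locally constant
    have hopen : ∀ x, IsOpen {x' | C x' = C x} := by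
      intro x
      have : {x' | C x' = C x} = ⋂ k ∈ Finset.range q, (T^[k]) ⁻¹' {y | c y = c (T^[k] x)} := by
        ext x'
        simp only [mem_iInter, Finset.mem_range, mem_preimage, mem_ofPred_eq]
        constructor
        · intro h k _; exact congrFun h k
        · intro h; funext k
          have hmod : ∀ z : X, ∀ k, C z k = C z (k % q) := by
            intro z k
            have : Function.Periodic (C z) q := fun k => hCper z k
            exact (this.map_mod_nat k).symm
          rw [hmod x' k, hmod x k]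
          exact h _ (Nat.mod_lt _ hqpos)
      rw [this]
      refine isOpen_biInter_finset ?_
      intro k _
      exact (hc _).preimage (hT.iterate k)
    rw [← isOpen_compl_iff]
    have : {x | κ (C x) = i}ᶜ = ⋃ x ∈ {x | κ (C x) ≠ i}, {x' | C x' = C x} := by
      ext y
      simp only [mem_compl_iff, mem_ofPred_eq, mem_iUnion, exists_prop]
      constructor
      · intro h; exact ⟨y, h, rfl⟩
      · rintro ⟨x, hx, hy⟩; rw [hy]; exact hx
    rw [this]
    exact isOpen_biUnion (fun x _ => hopen x)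
  · intro x
    show κ (C (T x)) = κ (C x) + 1
    rw [hCT]
    exact hκ (C x) J (hshq x) (hshne x)

open Pool.Agent.Y485.HS Pool.Agent.Y489.SP in
theorem t_PART : S_PART := by
  intro n p hp Φ τ hΦ hsep hcont hmaps hne happ
  have : CompactSpace Φ := isCompact_iff_compactSpace.1 hΦ
  have : TotallySeparatedSpace Φ := by
    constructor
    intro x _ x' _ hxx'
    have hne' : (x : E n) ≠ x' := fun h => hxx' (Subtype.ext h)
    obtain ⟨i, t, hz, h⟩ := hsep x x.2 x' x'.2 hne'
    have hci : Continuous (fun z : Φ => (z : E n) i) := by fun_prop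
    have o1 : IsOpen {z : Φ | (z : E n) i < t} := isOpen_lt hci continuous_const
    have o2 : IsOpen {z : Φ | t < (z : E n) i} := isOpen_lt continuous_const hci
    have hcov : ∀ z : Φ, (z : E n) i < t ∨ t < (z : E n) i := fun z =>
      lt_or_gt_of_ne (hz z z.2)
    have hdis : Disjoint {z : Φ | (z : E n) i < t} {z : Φ | t < (z : E n) i} := by
      rw [Set.disjoint_left]; intro z h1 h2
      exact lt_asymm (show (z : E n) i < t from h1) h2
    rcases h with ⟨h1, h2⟩ | ⟨h1, h2⟩
    · exact ⟨_, _, o1, o2, h1, h2, fun z _ => hcov z, hdis⟩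
    · exact ⟨_, _, o2, o1, h2, h1, fun z _ => (hcov z).symm, hdis.symm⟩
  set T : Φ → Φ := fun x => ⟨τ x, hmaps x x.2⟩ with hTdef
  have hT : Continuous T := by
    apply Continuous.subtype_mk
    exact continuousOn_iff_continuous_domRestrict.1 hcont
  have hTk : ∀ (k : ℕ) (x : Φ), ((T^[k] x : Φ) : E n) = τ^[k] x := by
    intro k
    induction k with
    | zero => intro x; rfl
    | succ k ih => intro x; rw [Function.iterate_succ_apply, Function.iterate_succ_apply, ih]
  obtain ⟨κ, hκc, hκ⟩ := core p hp T hT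
    (fun x h => hne x x.2 (congrArg Subtype.val h))
    (fun ε hε => by
      obtain ⟨J, hJ⟩ := happ ε hε
      refine ⟨J, fun x => ?_⟩
      rw [Subtype.dist_eq, hTk]
      exact hJ x x.2)
  refine ⟨fun i => Subtype.val '' {x : Φ | κ x = i}, ?_, ?_, ?_, ?_⟩
  · intro i
    exact (hκc i).isCompact.image continuous_subtype_val
  · intro i j hij
    rw [Set.disjoint_left]
    rintro _ ⟨x, hx, rfl⟩ ⟨y, hy, hxy⟩
    have : y = x := Subtype.ext hxy
    subst this
    exact hij (hx.symm.trans hy)
  · ext x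
    simp only [mem_iUnion, mem_image, mem_ofPred_eq]
    constructor
    · rintro ⟨i, y, -, rfl⟩; exact y.2
    · intro hx; exact ⟨κ ⟨x, hx⟩, ⟨x, hx⟩, rfl, rfl⟩
  · rintro i _ ⟨x, hx, rfl⟩
    refine ⟨T x, ?_, rfl⟩
    show κ (T x) = i + 1
    rw [hκ, hx]

end Pool.Agent.Y799.SP
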